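import Pool.Agent.W4.CF.Stms

/-!
# Project CF: the geometry of pairs with small value and pairwise divisible determinants
-/

set_option autoImplicit false

namespace Pool.Agent.W397.CF

open Finset Pool.Agent.W4.CF

lemma count9 (Y : ℝ) (hY : 1 ≤ Y) (p : ℤ × ℤ) (hp : Dy Y p) (s : Finset (ℤ × ℤ))
    (hs : ∀ x ∈ s, |(x.1 : ℝ)| ≤ Y ∧ |(x.2 : ℝ)| ≤ Y)
    (d : ℤ) (hd : ∀ x ∈ s, p.1 * x.2 - x.1 * p.2 = d) : s.card ≤ 9 := by
  rcases s.eq_empty_or_nonempty with rfl | ⟨p', hp'⟩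
  · simp
  obtain ⟨⟨a, b, hab⟩, -, -, hmax⟩ := hp
  let f : ℤ × ℤ → ℤ := fun x => a * (x.1 - p'.1) + b * (x.2 - p'.2)
  have hf : ∀ x ∈ s, f x * p.1 = x.1 - p'.1 ∧ f x * p.2 = x.2 - p'.2 := by
    intro x hx
    have h1 := hd x hx
    have h2 := hd p' hp'
    have h3 : p.1 * (x.2 - p'.2) = (x.1 - p'.1) * p.2 := by linarith
    constructor
    · show (a * (x.1 - p'.1) + b * (x.2 - p'.2)) * p.1 = _
      linear_combination (x.1 - p'.1) * hab + b * h3
    · show (a * (x.1 - p'.1) + b * (x.2 - p'.2)) * p.2 = _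
      linear_combination (x.2 - p'.2) * hab - a * h3
  have hb : ∀ x ∈ s, f x ∈ Finset.Icc (-4 : ℤ) 4 := by
    intro x hx
    obtain ⟨h1, h2⟩ := hf x hx
    have e1 : |(f x : ℝ)| * |(p.1 : ℝ)| ≤ 2 * Y := by
      rw [← abs_mul]
      have : (f x : ℝ) * (p.1 : ℝ) = (x.1 : ℝ) - p'.1 := by exact_mod_cast h1
      rw [this]
      have := abs_sub (x.1 : ℝ) (p'.1 : ℝ)
      linarith [(hs x hx).1, (hs p' hp').1]
    have e2 : |(f x : ℝ)| * |(p.2 : ℝ)| ≤ 2 * Y := by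
      rw [← abs_mul]
      have : (f x : ℝ) * (p.2 : ℝ) = (x.2 : ℝ) - p'.2 := by exact_mod_cast h2
      rw [this]
      have := abs_sub (x.2 : ℝ) (p'.2 : ℝ)
      linarith [(hs x hx).2, (hs p' hp').2]
    have e3 : |(f x : ℝ)| * max |(p.1 : ℝ)| |(p.2 : ℝ)| ≤ 2 * Y := by
      rcases max_choice |(p.1 : ℝ)| |(p.2 : ℝ)| with h | h <;> rw [h] <;> assumption
    have e4 : |(f x : ℝ)| ≤ 4 := by
      have h0 : 0 ≤ |(f x : ℝ)| := abs_nonneg _
      have : |(f x : ℝ)| * Y ≤ 4 * Y := by nlinarith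
      exact le_of_mul_le_mul_right this (by linarith)
    have e5 : |f x| ≤ 4 := by exact_mod_cast e4
    rw [Finset.mem_Icc]
    exact abs_le.1 e5
  have hinj : Set.InjOn f (s : Set (ℤ × ℤ)) := by
    intro x hx y hy hxy
    obtain ⟨h1, h2⟩ := hf x hx
    obtain ⟨h3, h4⟩ := hf y hy
    rw [hxy] at h1 h2
    apply Prod.ext
    · linarith
    · linarith
  have := Finset.card_le_card_of_injOn f hb hinj
  simpa using this

/-- GEO. -/
theorem t_GEO : S_GEO := by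
  intro r hr c i hc hi
  obtain ⟨δ, hδ, hδr⟩ : ∃ δ : ℝ, 0 < δ ∧ ∀ j l, j ≠ l → δ ≤ ‖r j - r l‖ := by
    have h : ∀ j l, j ≠ l → 0 < ‖r j - r l‖ := fun j l hjl =>
      norm_pos_iff.2 (sub_ne_zero.2 fun h => hjl (hr h))
    refine ⟨min ‖r 0 - r 1‖ (min ‖r 0 - r 2‖ ‖r 1 - r 2‖), ?_, ?_⟩
    · exact lt_min (h _ _ (by decide)) (lt_min (h _ _ (by decide)) (h _ _ (by decide)))
    · intro j l hjl
      fin_cases j <;> fin_cases l <;> first | exact absurd rfl hjl | skip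
      · exact min_le_left _ _
      · exact (min_le_right _ _).trans (min_le_left _ _)
      · exact (min_le_left _ _).trans (le_of_eq (norm_sub_rev _ _))
      · exact (min_le_right _ _).trans (min_le_right _ _)
      · exact ((min_le_right _ _).trans (min_le_left _ _)).trans (le_of_eq (norm_sub_rev _ _))
      · exact ((min_le_right _ _).trans (min_le_right _ _)).trans (le_of_eq (norm_sub_rev _ _))
  obtain ⟨R, hR1, hR⟩ : ∃ R : ℝ, 1 ≤ R ∧ ∀ j, ‖r j‖ ≤ R := by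
    refine ⟨1 + ∑ j, ‖r j‖, ?_, fun j => ?_⟩
    · have : 0 ≤ ∑ j, ‖r j‖ := Finset.sum_nonneg fun j _ => norm_nonneg _
      linarith
    · have : ‖r j‖ ≤ ∑ j, ‖r j‖ :=
        Finset.single_le_sum (f := fun j => ‖r j‖) (fun j _ => norm_nonneg _) (Finset.mem_univ j)
      linarith
  have hsum : ∀ j l, j ≠ l → ∀ u v : ℤ, δ * max |(u : ℝ)| |(v : ℝ)| ≤
      R * (‖(u : ℂ) - v * r j‖ + ‖(u : ℂ) - v * r l‖) := by
    intro j l hjl u v
    have hA := norm_nonneg ((u : ℂ) - v * r j)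
    have hB := norm_nonneg ((u : ℂ) - v * r l)
    have h1 : ‖r j - r l‖ * |(v : ℝ)| ≤ ‖(u : ℂ) - v * r j‖ + ‖(u : ℂ) - v * r l‖ := by
      have e : ((u : ℂ) - v * r l) - ((u : ℂ) - v * r j) = (r j - r l) * (v : ℂ) := by ring
      have e2 : ‖(r j - r l) * (v : ℂ)‖ = ‖r j - r l‖ * |(v : ℝ)| := by
        rw [norm_mul, Complex.norm_intCast]
      rw [← e2, ← e]
      exact (norm_sub_le _ _).trans (le_of_eq (add_comm _ _))
    have h2 : ‖r j - r l‖ * |(u : ℝ)| ≤ R * (‖(u : ℂ) - v * r j‖ + ‖(u : ℂ) - v * r l‖) := by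
      have e : r j * ((u : ℂ) - v * r l) - r l * ((u : ℂ) - v * r j) = (r j - r l) * (u : ℂ) := by
        ring
      have e2 : ‖(r j - r l) * (u : ℂ)‖ = ‖r j - r l‖ * |(u : ℝ)| := by
        rw [norm_mul, Complex.norm_intCast]
      rw [← e2, ← e]
      refine (norm_sub_le _ _).trans ?_
      rw [norm_mul, norm_mul]
      have := mul_le_mul_of_nonneg_right (hR j) hB
      have := mul_le_mul_of_nonneg_right (hR l) hA
      linarith
    have hd := hδr j l hjl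
    rcases max_choice |(u : ℝ)| |(v : ℝ)| with h | h
    · rw [h]
      exact (mul_le_mul_of_nonneg_right hd (abs_nonneg _)).trans h2
    · rw [h]
      refine (mul_le_mul_of_nonneg_right hd (abs_nonneg _)).trans (h1.trans ?_)
      exact le_mul_of_one_le_left (add_nonneg hA hB) hR1
  -- the constants
  set m0 : ℝ := δ / (4 * R) with hm0
  have hR0 : 0 < R := by linarith
  have hm0p : 0 < m0 := by positivity
  set c2 : ℝ := c / m0 ^ 2 with hc2
  have hc2p : 0 < c2 := by positivity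
  set T : ℕ := ⌊2 * c2 * i⌋₊ with hT
  refine ⟨(9 * (2 * T + 1) * 3 : ℕ), by positivity, ?_⟩
  intro Y hY q hq s hs hdet
  have hY0 : 0 < Y := by linarith
  have hq0 : (0 : ℝ) < q := by exact_mod_cast hq
  -- the index of the smallest factor
  have hmin : ∀ p : ℤ × ℤ, ∃ j0 : Fin 3, ∀ j, ‖(p.1 : ℂ) - p.2 * r j0‖ ≤ ‖(p.1 : ℂ) - p.2 * r j‖ :=
    fun p => Finite.exists_min fun j => ‖(p.1 : ℂ) - p.2 * r j‖
  choose J hJ using hmin
  have hsmall : ∀ p ∈ s, ‖(p.1 : ℂ) - p.2 * r (J p)‖ * Y ≤ c2 * q := by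
    intro p hp
    obtain ⟨⟨_, _, _, hmax⟩, hprod⟩ := hs p hp
    have hbig : ∀ l, l ≠ J p → m0 * Y ≤ ‖(p.1 : ℂ) - p.2 * r l‖ := by
      intro l hl
      have h1 := hsum l (J p) hl p.1 p.2
      have h2 := hJ p l
      have h3 : δ * (Y / 2) ≤ R * (2 * ‖(p.1 : ℂ) - p.2 * r l‖) := by
        calc δ * (Y / 2) ≤ δ * max |(p.1 : ℝ)| |(p.2 : ℝ)| := by
              apply mul_le_mul_of_nonneg_left _ hδ.le; linarith
          _ ≤ _ := h1
          _ ≤ _ := by apply mul_le_mul_of_nonneg_left _ hR0.le; linarith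
      rw [hm0, div_mul_eq_mul_div, div_le_iff₀ (by positivity)]
      linarith
    have h1 : ‖∏ j, ((p.1 : ℂ) - p.2 * r j)‖ =
        ‖(p.1 : ℂ) - p.2 * r (J p)‖ * ∏ l ∈ Finset.univ.erase (J p), ‖(p.1 : ℂ) - p.2 * r l‖ := by
      rw [norm_prod, Finset.mul_prod_erase Finset.univ (fun l => ‖(p.1 : ℂ) - p.2 * r l‖)
        (Finset.mem_univ _)]
    have h2 : (m0 * Y) ^ 2 ≤ ∏ l ∈ Finset.univ.erase (J p), ‖(p.1 : ℂ) - p.2 * r l‖ := by
      have h3 : ∏ _l ∈ Finset.univ.erase (J p), (m0 * Y) = (m0 * Y) ^ 2 := by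
        rw [Finset.prod_const, Finset.card_erase_of_mem (Finset.mem_univ _)]
        simp
      rw [← h3]
      exact Finset.prod_le_prod (fun _ _ => by positivity)
        (fun l hl => hbig l (Finset.ne_of_mem_erase hl))
    rw [h1] at hprod
    have h4 : ‖(p.1 : ℂ) - p.2 * r (J p)‖ * (m0 * Y) ^ 2 ≤ c * Y * q :=
      (mul_le_mul_of_nonneg_left h2 (norm_nonneg _)).trans hprod
    rw [hc2, div_mul_eq_mul_div, le_div_iff₀ (by positivity)]
    have h5 : (‖(p.1 : ℂ) - p.2 * r (J p)‖ * Y * m0 ^ 2) * Y ≤ (c * q) * Y := by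
      nlinarith
    exact le_of_mul_le_mul_right h5 hY0
  have hdetb : ∀ p ∈ s, ∀ p' ∈ s, J p = J p' →
      |((p.1 * p'.2 - p'.1 * p.2 : ℤ) : ℝ)| ≤ 2 * c2 * q := by
    intro p hp p' hp' hJJ
    have h1 := hsmall p hp
    have h2 := hsmall p' hp'
    rw [← hJJ] at h2
    obtain ⟨⟨_, _, hp2, _⟩, _⟩ := hs p hp
    obtain ⟨⟨_, _, hp2', _⟩, _⟩ := hs p' hp'
    have e : ((p.1 * p'.2 - p'.1 * p.2 : ℤ) : ℂ) =
        ((p.1 : ℂ) - p.2 * r (J p)) * p'.2 - ((p'.1 : ℂ) - p'.2 * r (J p)) * p.2 := by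
      push_cast; ring
    have e2 : |((p.1 * p'.2 - p'.1 * p.2 : ℤ) : ℝ)| = ‖((p.1 * p'.2 - p'.1 * p.2 : ℤ) : ℂ)‖ := by
      rw [Complex.norm_intCast]
    rw [e2, e]
    refine (norm_sub_le _ _).trans ?_
    rw [norm_mul, norm_mul, Complex.norm_intCast, Complex.norm_intCast]
    have h3 := mul_le_mul_of_nonneg_left hp2' (norm_nonneg ((p.1 : ℂ) - p.2 * r (J p)))
    have h4 := mul_le_mul_of_nonneg_left hp2 (norm_nonneg ((p'.1 : ℂ) - p'.2 * r (J p)))
    linarith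
  -- the fibres over the index
  have hfib : ∀ j ∈ s.image J, (s.filter fun x => J x = j).card ≤ 9 * (2 * T + 1) := by
    intro j hj
    obtain ⟨p, hp, rfl⟩ := Finset.mem_image.1 hj
    let t : ℤ × ℤ → ℤ := fun x => (i * (p.1 * x.2 - x.1 * p.2)) / q
    have ht : ∀ x ∈ s, (i : ℤ) * (p.1 * x.2 - x.1 * p.2) = q * t x := fun x hx =>
      (Int.mul_ediv_cancel' (hdet p hp x hx)).symm
    have htb : ∀ x ∈ s.filter (fun x => J x = J p), t x ∈ Finset.Icc (-(T : ℤ)) T := by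
      intro x hx
      obtain ⟨hx1, hx2⟩ := Finset.mem_filter.1 hx
      have h1 := hdetb p hp x hx1 hx2.symm
      have h2 : (q : ℝ) * |(t x : ℝ)| ≤ q * (2 * c2 * i) := by
        have h3 : (q : ℝ) * |(t x : ℝ)| = i * |((p.1 * x.2 - x.1 * p.2 : ℤ) : ℝ)| := by
          have h4 : ((q : ℝ) * (t x : ℝ)) = i * ((p.1 * x.2 - x.1 * p.2 : ℤ) : ℝ) := by
            exact_mod_cast (ht x hx1).symm
          have h5 := congrArg abs h4
          rw [abs_mul, abs_mul, Nat.abs_cast, Nat.abs_cast] at h5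
          exact h5
        rw [h3]
        have := mul_le_mul_of_nonneg_left h1 (Nat.cast_nonneg (α := ℝ) i)
        linarith
      have h3 : |(t x : ℝ)| ≤ 2 * c2 * i := le_of_mul_le_mul_left h2 hq0
      have h4 : (t x).natAbs ≤ T := by
        rw [hT]
        apply Nat.le_floor
        rw [Nat.cast_natAbs]
        simpa using h3
      rw [Finset.mem_Icc]
      omega
    have hcard := Finset.card_le_mul_card_image (f := t) (s.filter fun x => J x = J p) 9 (by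
      intro b _
      apply count9 Y hY p (hs p hp).1 _ _ (q * b / i)
      · intro x hx
        obtain ⟨hx1, hx2⟩ := Finset.mem_filter.1 hx
        obtain ⟨hx3, hx4⟩ := Finset.mem_filter.1 hx1
        rw [← hx2, ← ht x hx3, Int.mul_ediv_cancel_left _ (by omega)]
      · intro x hx
        obtain ⟨hx1, _⟩ := Finset.mem_filter.1 hx
        obtain ⟨hx3, _⟩ := Finset.mem_filter.1 hx1
        exact ⟨(hs x hx3).1.2.1, (hs x hx3).1.2.2.1⟩)
    refine hcard.trans (Nat.mul_le_mul_left 9 ?_)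
    have h1 : ((s.filter fun x => J x = J p).image t) ⊆ Finset.Icc (-(T : ℤ)) T := by
      intro b hb
      obtain ⟨x, hx, rfl⟩ := Finset.mem_image.1 hb
      exact htb x hx
    refine (Finset.card_le_card h1).trans ?_
    rw [Int.card_Icc]
    omega
  have hfin := Finset.card_le_mul_card_image (f := J) s (9 * (2 * T + 1)) hfib
  have h3 : (s.image J).card ≤ 3 := by
    have := Finset.card_le_univ (s.image J)
    simpa using this
  have : s.card ≤ 9 * (2 * T + 1) * 3 := hfin.trans (Nat.mul_le_mul_left _ h3)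
  exact_mod_cast this

end Pool.Agent.W397.CF
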